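import Pool.Agent.MP_257582_lc.C5.K1Data

set_option autoImplicit false
set_option maxRecDepth 100000

namespace Pool.Agent.MP_257582_lc.C5

theorem K1v0 : allR 0 13716 (vOK1 TT K1V 410) = true := by decide +kernel

theorem K1p0 : allR 0 121 (fun i => frcB (K1P i) (pbOK UT TT FT K1V 410 29)) = true := by decide +kernel

theorem K1p1 : allR 121 44 (fun i => frcB (K1P i) (pbOK UT TT FT K1V 410 29)) = true := by decide +kernel

theorem K1d0 : allR 0 697 K1ok = true := by decide +kernel


end Pool.Agent.MP_257582_lc.C5
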