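import Pool.Agent.MP_257582_lc.C5.Glob

set_option autoImplicit false
set_option maxRecDepth 100000

namespace Pool.Agent.MP_257582_lc.C5

noncomputable def tK2V : Tr :=
(.lf 0x70007000f044a00000000000000070007000000070005000000000007000700000006000500000000000700070000000100050000000000070007000000000005003c0000000c00000001000700000010fbb50000000000000007000700107fff0000000000000007000700104f750000003c0000001300040000000a0001000100060001001043ff000000040000000d0004000000080001000100050002001042ff000000040000000b00040000000600010001000400030010427f000000040000000900040000000400010001000300040010426f000000040000000700040000000200010001000200050010422f00000004000000050004000000000001000100010006001042270000000400000003000100000000000700104225000000b400b400b400b400b400b400b400b400b400b400b400b400b400b400b400b400b400b400ad00a6009f00980091008700800079006c005f005200450038002b0021)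


noncomputable def K2V : ℕ → ℕ := tab tK2V 15

noncomputable def tK2P : Tr :=
(.lf 0x4000100230002000400020004000000104225001c0002000e000100100001000000000001000200080001000800000000000600010001001a0001001800000001000100080001000800000000000000010001001600010014000000010001005100510051005100510051005100510051005100510051005100510051005100510051005100510051005100510051005100510051005100510051003d002f0021)


noncomputable def K2P : ℕ → ℕ := tab tK2P 3

noncomputable def tK2U : Tr :=
(.lf 0xf000e0019000c0016000a001d00080012000600110004001b0002001400000031003100310031003100310031003100310031003100310031003100310031003100310031003100310031003100310031002f002d002b00290027002500230021)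


noncomputable def K2U : ℕ → ℕ := tab tK2U 8

noncomputable def K2us : ℕ → ℕ := useL K2V 8

def K2AS : List ℕ := [141733789697, 145884839936, 128992935937]

noncomputable def tK2D0 : Tr :=
(.lf 0x10001000b0001000800000000000100010009000100070000000f000100010001000700010005000000190001000100010003000100050000001600010004001d00010004001200010004001100010003001b0001000200140001004f004f004f004f004f004f004f004f004f004f004f004f004f004f004f004f004f004f004f004f004f004f004f004f0048004000380030002d002a002700240021)


noncomputable def K2D : ℕ → ℕ := tab tK2D0  9

noncomputable def K2ok : ℕ → Bool :=
  dbOK UT TT FT K2V 11 410 29 K2D K2P K2us K2U K2AS


end Pool.Agent.MP_257582_lc.C5
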