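import Pool.Agent.MP_257582_lc.C5.K4Data

set_option autoImplicit false
set_option maxRecDepth 100000

namespace Pool.Agent.MP_257582_lc.C5

theorem K4v0 : allR 0 312 (vOK1 TT K4V 410) = true := by decide +kernel

theorem K4p0 : allR 0 13 (fun i => frcB (K4P i) (pbOK UT TT FT K4V 410 29)) = true := by decide +kernel

theorem K4d0 : allR 0 23 K4ok = true := by decide +kernel

theorem K4 {n d : ℕ} {f : SimpleGraph (Fin n) → Prop} {y : ℕ → ℕ}
    (E : Env UT VE n d f 11 20 y) (hA : ∀ a ∈ K4AS, Asm UT VE f y a) : False :=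
  cert_sound (VT := K4V) (PT := K4P) (DB := K4D) (us := K4us) (U := K4U) (nD := 22)
    E hT hF rfl rfl rfl (good_step (good_zero _) K4v0 rfl)
    (good_step (good_zero _) K4p0 rfl)
    (good_step (good_zero _) K4d0 rfl)
    (by decide +kernel) hA

end Pool.Agent.MP_257582_lc.C5
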