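import Pool.Agent.MP_257582_lc.C5.K5Data

set_option autoImplicit false
set_option maxRecDepth 100000

namespace Pool.Agent.MP_257582_lc.C5

theorem K5d1 : allR 1064 1710 K5ok = true := by decide +kernel

theorem K5d2 : allR 2774 1787 K5ok = true := by decide +kernel

theorem K5d3 : allR 4561 1829 K5ok = true := by decide +kernel


end Pool.Agent.MP_257582_lc.C5
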