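import Pool.Agent.MP_257582_lc.C5.K5C0
import Pool.Agent.MP_257582_lc.C5.K5C1
import Pool.Agent.MP_257582_lc.C5.K5C2

set_option autoImplicit false
set_option maxRecDepth 100000

namespace Pool.Agent.MP_257582_lc.C5

theorem K5 {n d : ℕ} {f : SimpleGraph (Fin n) → Prop} {y : ℕ → ℕ}
    (E : Env UT VE n d f 11 20 y) (hA : ∀ a ∈ K5AS, Asm UT VE f y a) : False :=
  cert_sound (VT := K5V) (PT := K5P) (DB := K5D) (us := K5us) (U := K5U) (nD := 6838)
    E hT hF rfl rfl rfl (good_step (good_zero _) K5v0 rfl)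
    (good_step (good_step (good_zero _) K5p0 rfl) K5p1 rfl)
    (good_step (good_step (good_step (good_step (good_step (good_zero _) K5d0 rfl) K5d1 rfl) K5d2 rfl) K5d3 rfl) K5d4 rfl)
    (by decide +kernel) hA

end Pool.Agent.MP_257582_lc.C5
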