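import Pool.Agent.MP_257582_lc.C5.K5Data

set_option autoImplicit false
set_option maxRecDepth 100000

namespace Pool.Agent.MP_257582_lc.C5

theorem K5v0 : allR 0 13370 (vOK1 TT K5V 410) = true := by decide +kernel

theorem K5p0 : allR 0 204 (fun i => frcB (K5P i) (pbOK UT TT FT K5V 410 29)) = true := by decide +kernel

theorem K5p1 : allR 204 14 (fun i => frcB (K5P i) (pbOK UT TT FT K5V 410 29)) = true := by decide +kernel

theorem K5d0 : allR 0 1064 K5ok = true := by decide +kernel


end Pool.Agent.MP_257582_lc.C5
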