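import Pool.Agent.MP_257582_lc.C5.K6Data

set_option autoImplicit false
set_option maxRecDepth 100000

namespace Pool.Agent.MP_257582_lc.C5

theorem K6d2 : allR 2500 2237 K6ok = true := by decide +kernel

theorem K6d3 : allR 4737 1726 K6ok = true := by decide +kernel


end Pool.Agent.MP_257582_lc.C5
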