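import Pool.Agent.MP_257582_lc.C5.K6Data

set_option autoImplicit false
set_option maxRecDepth 100000

namespace Pool.Agent.MP_257582_lc.C5

theorem K6v0 : allR 0 9126 (vOK1 TT K6V 410) = true := by decide +kernel

theorem K6p0 : allR 0 36 (fun i => frcB (K6P i) (pbOK UT TT FT K6V 410 29)) = true := by decide +kernel

theorem K6d0 : allR 0 611 K6ok = true := by decide +kernel

theorem K6d1 : allR 611 1889 K6ok = true := by decide +kernel


end Pool.Agent.MP_257582_lc.C5
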