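import Pool.Agent.MP_257582_lc.Fin1
import Pool.Agent.MP_257582_lc.C5.K1
import Pool.Agent.MP_257582_lc.C5.K2
import Pool.Agent.MP_257582_lc.C5.K3
import Pool.Agent.MP_257582_lc.C5.K4
import Pool.Agent.MP_257582_lc.C5.K5
import Pool.Agent.MP_257582_lc.C5.K6

/-!
Five blocks of prime size: no strategy of depth below `(2/5 - ε) n ^ 2`.
-/

set_option autoImplicit false

namespace Pool.Agent.MP_257582_lc.C5

variable {n d : ℕ} {y : ℕ → ℕ}

theorem no_two (E : ∀ f, Setup n d f → Env UT VE n d f 11 20 y)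
    (f : SimpleGraph (Fin n) → Prop) (hf : Two n d f) : False := by
  have nil : ∀ f : SimpleGraph (Fin n) → Prop, ∀ a ∈ ([] : List ℕ), Asm UT VE f y a :=
    fun _ _ h => absurd h List.not_mem_nil
  have cons : ∀ {f : SimpleGraph (Fin n) → Prop} {a : ℕ} {l : List ℕ}, Asm UT VE f y a →
      (∀ b ∈ l, Asm UT VE f y b) → ∀ b ∈ a :: l, Asm UT VE f y b :=
    fun h1 h2 => List.forall_mem_cons.2 ⟨h1, h2⟩
  have a1 := asm_pair (m := 1113013) (m' := 984138) (a := 145884839937) (b := 145884839936)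
    (c := 128992935937) (by norm_num) (by norm_num) (by norm_num) (by decide +kernel)
    fun f hf h => K1 (E f hf.1) (cons h (nil f))
  have a2 := asm_pair (m := 1081343) (m' := 1015808) (a := 141733789697) (b := 141733789696)
    (c := 133143986177) (by norm_num) (by norm_num) (by norm_num) (by decide +kernel)
    fun f hf h => K2 (E f hf.1) (cons h (cons (a1 f hf).1 (cons (a1 f hf).2 (nil f))))
  have a3 := asm_pair (m := 1995559) (m' := 101592) (a := 261561909249) (b := 261561909248)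
    (c := 13315866625) (by norm_num) (by norm_num) (by norm_num) (by decide +kernel)
    fun f hf h => K3 (E f hf.1) (cons h (cons (a2 f hf).1 (cons (a2 f hf).2
      (cons (a1 f hf).1 (cons (a1 f hf).2 (nil f))))))
  have a4 := asm_pair (m := 1176359) (m' := 920792) (a := 154187726849) (b := 154187726848)
    (c := 120690049025) (by norm_num) (by norm_num) (by norm_num) (by decide +kernel)
    fun f hf h => K4 (E f hf.1) (cons h (cons (a2 f hf).1 (cons (a2 f hf).2
      (cons (a1 f hf).1 (cons (a1 f hf).2 (cons (a3 f hf).1 (cons (a3 f hf).2 (nil f))))))))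
  have a5 := asm_pair (m := 2063285) (m' := 33866) (a := 270438891521) (b := 270438891520)
    (c := 4438884353) (by norm_num) (by norm_num) (by norm_num) (by decide +kernel)
    fun f hf h => K5 (E f hf.1) (cons h (cons (a2 f hf).1 (cons (a2 f hf).2
      (cons (a1 f hf).1 (cons (a1 f hf).2 (cons (a3 f hf).1 (cons (a3 f hf).2
      (cons (a4 f hf).1 (cons (a4 f hf).2 (nil f))))))))))
  exact K6 (E f hf.1) (cons (a2 f hf).1 (cons (a2 f hf).2
      (cons (a1 f hf).1 (cons (a1 f hf).2 (cons (a3 f hf).1 (cons (a3 f hf).2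
      (cons (a4 f hf).1 (cons (a4 f hf).2 (cons (a5 f hf).1 (cons (a5 f hf).2 (nil f)))))))))))

theorem env0 : envOK UT VE 11
    134799733655885388223421631164923977573078435317758544766673287643136
    [26959946729921657294683986798750184439302382305884823924467382091776,
     107839786925963730928737644366173793133776053011855274098089246326784,
     107839786919686629178735947195000737757130301060840563919109392171008,
     80879840196042073634053657567083326326760450615538204522705393287168,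
     134799733649608286471958432353017195601176025792200912652349676191744,
     134799733655885388223421631164923977573078435317758544766668992675840] = true := by
  decide +kernel

theorem no_two' {m u1 u2 u3 u4 w p q0 q1 q2 q3 q4 : ℕ} (h0 : 0 < m) (h1 : 10 * m < u1)
    (h2 : 10 * u1 < u2) (h3 : 10 * u2 < u3) (h4 : 10 * u3 < u4) (h5 : 10 * u4 < w)
    (h6 : 10 * w < p) (hn : 5 * p + w = n) (e0 : q0 + m = n) (e1 : q1 + u1 = 4 * p + w)
    (e2 : q2 + u2 = 4 * p) (e3 : q3 + u3 = 3 * p + w) (e4 : q4 + u4 = 5 * p)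
    (pp : p.Prime ∧ 65536 < p) (p0 : q0.Prime ∧ 65536 < q0) (p1 : q1.Prime ∧ 65536 < q1)
    (p2 : q2.Prime ∧ 65536 < q2) (p3 : q3.Prime ∧ 65536 < q3) (p4 : q4.Prime ∧ 65536 < q4)
    (hw : 2 * d + n < 20 * (p - 10 * w) ^ 2)
    (f : SimpleGraph (Fin n) → Prop) (hf : Two n d f) : False := by
  obtain ⟨y2, rfl⟩ := Nat.exists_eq_add_of_le h1.le
  obtain ⟨y3, rfl⟩ := Nat.exists_eq_add_of_le h2.le
  obtain ⟨y4, rfl⟩ := Nat.exists_eq_add_of_le h3.le
  obtain ⟨y5, rfl⟩ := Nat.exists_eq_add_of_le h4.le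
  obtain ⟨y6, rfl⟩ := Nat.exists_eq_add_of_le h5.le
  obtain ⟨y7, h7⟩ := Nat.exists_eq_add_of_le h6.le
  let y : ℕ → ℕ := fun c => [1, m, y2, y3, y4, y5, y6, y7].getD c 1
  have hy : y 0 = 1 ∧ y 1 = m ∧ y 2 = y2 ∧ y 3 = y3 ∧ y 4 = y4 ∧ y 5 = y5 ∧ y 6 = y6 ∧ y 7 = y7 :=
    ⟨rfl, rfl, rfl, rfl, rfl, rfl, rfl, rfl⟩
  have key : ∀ a b : ℕ, a = b → b.Prime ∧ 65536 < b → a.Prime ∧ 65536 < a := fun a b h h' => h ▸ h'
  refine no_two (y := y) (fun g hg => env_of_check env0 (fun c hc => ?_) ?_ (fun v hv => ?_)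
    (by rw [h7, Nat.add_sub_cancel_left] at hw; exact hw) hg) f hf
  · interval_cases c <;> omega
  · rw [ev_eq y _ 0 5100000 510000 51000 5100 510 51 5 (by decide +kernel)]; omega
  · simp only [List.mem_cons, List.not_mem_nil, or_false] at hv
    rcases hv with rfl | rfl | rfl | rfl | rfl | rfl
    · exact key _ p ((ev_eq y _ 0 1000000 100000 10000 1000 100 10 1
        (by decide +kernel)).trans (by omega)) pp
    · exact key _ q1 ((ev_eq y _ 0 4099990 409999 41000 4100 410 41 4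
        (by decide +kernel)).trans (by omega)) p1
    · exact key _ q2 ((ev_eq y _ 0 3999900 399990 39999 4000 400 40 4
        (by decide +kernel)).trans (by omega)) p2
    · exact key _ q3 ((ev_eq y _ 0 3099000 309900 30990 3099 310 31 3
        (by decide +kernel)).trans (by omega)) p3
    · exact key _ q4 ((ev_eq y _ 0 4990000 499000 49900 4990 499 50 5
        (by decide +kernel)).trans (by omega)) p4
    · exact key _ q0 ((ev_eq y _ 0 5099999 510000 51000 5100 510 51 5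
        (by decide +kernel)).trans (by omega)) p0

theorem no_two_large (ε : ℝ) (hε : 0 < ε) : ∃ N : ℕ, ∀ n ≥ N, ∀ d : ℕ,
    (d : ℝ) ≤ (2 / 5 - ε) * (n : ℝ) ^ 2 → ∀ f, ¬ Two n d f := by
  obtain ⟨δ, hδ, hδ1, hδ2⟩ : ∃ δ : ℝ, 0 < δ ∧ δ ≤ 1 / 1000 ∧ 1000 * δ ≤ ε :=
    ⟨min (1 / 1000) (ε / 1000), by positivity, min_le_left _ _,
      by linarith [min_le_right (1 / 1000 : ℝ) (ε / 1000)]⟩
  obtain ⟨N0, g0⟩ := prime_window (δ / 12800000) (by positivity) (by linarith)
  obtain ⟨N1, g1⟩ := prime_window (δ / 320000) (by positivity) (by linarith)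
  obtain ⟨N2, g2⟩ := prime_window (δ / 8000) (by positivity) (by linarith)
  obtain ⟨N3, g3⟩ := prime_window (δ / 200) (by positivity) (by linarith)
  obtain ⟨N4, g4⟩ := prime_window (δ / 5) (by positivity) (by linarith)
  obtain ⟨N5, g5⟩ := prime_window δ hδ (by linarith)
  obtain ⟨N6, g6⟩ := exists_nat_ge (100 / δ)
  refine ⟨N0 + N1 + N2 + N3 + N4 + N5 + N6 + 100, fun n hn d hd f hf => ?_⟩
  have hn6 : (N6 : ℝ) ≤ n := by exact_mod_cast (by omega : N6 ≤ n)
  have ht : 100 ≤ δ * n := by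
    rw [div_le_iff₀ hδ] at g6
    nlinarith
  have hn0 : (0 : ℝ) ≤ n := Nat.cast_nonneg n
  have ht2 : δ * n ≤ n / 1000 := by nlinarith
  obtain ⟨p, v, pp, pp', ep, v1, v2⟩ := g5 n (by omega) (n / 5) (by omega) (by omega)
  obtain ⟨w, hw⟩ : ∃ w, 5 * p + w = n := ⟨n - 5 * p, by omega⟩
  have hw' : 5 * (p : ℝ) + w = n := by exact_mod_cast hw
  have w1 : 5 * (v : ℝ) ≤ w := by exact_mod_cast (by omega : 5 * v ≤ w)
  have w2 : (w : ℝ) ≤ 5 * v + 4 := by exact_mod_cast (by omega : w ≤ 5 * v + 4)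
  have h6 : 10 * w < p := by
    have : 10 * (w : ℝ) < p := by linarith
    exact_mod_cast this
  obtain ⟨q0, m, p0, p0', e0, m1, m2⟩ := g0 n (by omega) n (by omega) le_rfl
  obtain ⟨q1, u1, p1, p1', e1, a1, b1⟩ := g1 n (by omega) (4 * p + w) (by omega) (by omega)
  obtain ⟨q2, u2, p2, p2', e2, a2, b2⟩ := g2 n (by omega) (4 * p) (by omega) (by omega)
  obtain ⟨q3, u3, p3, p3', e3, a3, b3⟩ := g3 n (by omega) (3 * p + w) (by omega) (by omega)
  obtain ⟨q4, u4, p4, p4', e4, a4, b4⟩ := g4 n (by omega) (5 * p) (by omega) (by omega)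
  refine no_two' (m := m) ?_ ?_ ?_ ?_ ?_ ?_ h6 hw e0 e1 e2 e3 e4 ⟨pp, pp'⟩ ⟨p0, p0'⟩ ⟨p1, p1'⟩
    ⟨p2, p2'⟩ ⟨p3, p3'⟩ ⟨p4, p4'⟩ ?_ f hf
  · have : (0 : ℝ) < m := by linarith
    exact_mod_cast this
  · have : 10 * (m : ℝ) < u1 := by linarith
    exact_mod_cast this
  · have : 10 * (u1 : ℝ) < u2 := by linarith
    exact_mod_cast this
  · have : 10 * (u2 : ℝ) < u3 := by linarith
    exact_mod_cast this
  · have : 10 * (u3 : ℝ) < u4 := by linarith
    exact_mod_cast this
  · have : 10 * (u4 : ℝ) < w := by linarith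
    exact_mod_cast this
  · have h7 : (n : ℝ) / 5 - 103 * (δ * n) ≤ (p - 10 * w : ℕ) := by
      rw [Nat.cast_sub h6.le]; push_cast; linarith
    have h8 : ((n : ℝ) / 5 - 103 * (δ * n)) ^ 2 ≤ ((p - 10 * w : ℕ) : ℝ) ^ 2 :=
      pow_le_pow_left₀ (by linarith) h7 2
    have h9 : 1000 * δ * (n : ℝ) ^ 2 ≤ ε * (n : ℝ) ^ 2 := by gcongr
    have h10 : (0 : ℝ) < n := by linarith
    have : 2 * (d : ℝ) + n < 20 * ((p - 10 * w : ℕ) : ℝ) ^ 2 := by
      nlinarith [sq_nonneg (δ * n), mul_le_mul_of_nonneg_right ht hn0]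
    exact_mod_cast this

end Pool.Agent.MP_257582_lc.C5
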